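import Pool.Agent.helper68.QZ.Spec

/-!
Row qz:EX (MP_5a4a8e_nt).
-/

set_option autoImplicit false

namespace Pool.Agent.QZ

open N1f72dd46 Filter MeasureTheory Complex Metric Pool.Agent.helper6.LD
open scoped ComplexConjugate

theorem EX_int_tsum {α ι : Type} [MeasurableSpace α] {μ : Measure α} [Countable ι] {F : ι → α → ℂ}
    (hF_int : ∀ i, Integrable (F i) μ) (hF_sum : Summable fun i => ∫ a, ‖F i a‖ ∂μ) :
    Integrable (fun a => ∑' i, F i a) μ := by
  have h1 : ∀ i, ∫⁻ a, ‖F i a‖ₑ ∂μ = ENNReal.ofReal (∫ a, ‖F i a‖ ∂μ) := fun i =>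
    (ofReal_integral_norm_eq_lintegral_enorm (hF_int i)).symm
  have h2 : ∑' i, ∫⁻ a, ‖F i a‖ₑ ∂μ ≠ ⊤ := by
    simp_rw [h1]
    rw [← ENNReal.ofReal_tsum_of_nonneg (fun i => integral_nonneg fun a => norm_nonneg _) hF_sum]
    exact ENNReal.ofReal_ne_top
  have h3 : ∫⁻ a, ∑' i, ‖F i a‖ₑ ∂μ ≠ ⊤ := by
    rw [lintegral_tsum (fun i => (hF_int i).1.enorm)]
    exact h2
  have h4 : ∀ᵐ a ∂μ, ∑' i, ‖F i a‖ₑ < ⊤ := by
    refine ae_lt_top' ?_ h3
    exact AEMeasurable.tsum fun i => (hF_int i).1.enorm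
  have h5 : ∀ᵐ a ∂μ, Summable fun i => F i a := by
    filter_upwards [h4] with a ha
    have h6 : Summable fun i => ‖F i a‖₊ := ENNReal.tsum_coe_ne_top_iff_summable.1 ha.ne
    have h7 : Summable fun i => ‖F i a‖ := NNReal.summable_coe.2 h6
    exact h7.of_norm
  refine ⟨aestronglyMeasurable_of_tendsto_ae (atTop : Filter (Finset ι)) (f := fun s a => ∑ i ∈ s, F i a)
    (fun s => Finset.aestronglyMeasurable_fun_sum s fun i _ => (hF_int i).1) (h5.mono fun a ha => ha.hasSum), ?_⟩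
  refine lt_of_le_of_lt (lintegral_mono_ae ?_) (lt_top_iff_ne_top.2 h3)
  filter_upwards [h5] with a ha
  exact enorm_tsum_le_tsum_enorm

theorem EX_w_cont (k : ℕ) (s : ℂ) : Continuous (w k s) := by
  unfold w
  fun_prop

theorem EX_w_le (k : ℕ) {s : ℂ} (hs : 2 ≤ s.re) {y : ℝ} (hy : 0 ≤ y) : ‖w k s y‖ ≤ 2 ^ k * Real.exp (-(3 / 2) * y) := by
  unfold w
  have h1 : ‖Complex.exp (-s * y)‖ ≤ Real.exp (-2 * y) := by
    rw [Complex.norm_exp]
    refine Real.exp_le_exp.2 ?_
    simp only [Complex.mul_re, Complex.neg_re, Complex.ofReal_re, Complex.neg_im, Complex.ofReal_im, mul_zero,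
      sub_zero]
    nlinarith
  have h2 : ‖(y : ℂ) ^ k / (k.factorial : ℂ)‖ ≤ 2 ^ k * Real.exp (y / 2) := by
    rw [norm_div, norm_pow, Complex.norm_real, Complex.norm_natCast, Real.norm_of_nonneg hy]
    have h3 := Real.pow_div_factorial_le_exp (y / 2) (by positivity) k
    have h4 : y ^ k / (k.factorial : ℝ) = 2 ^ k * ((y / 2) ^ k / (k.factorial : ℝ)) := by
      rw [div_pow]
      field_simp
    rw [h4]
    exact mul_le_mul_of_nonneg_left h3 (by positivity)
  rw [norm_mul]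
  calc ‖(y : ℂ) ^ k / (k.factorial : ℂ)‖ * ‖Complex.exp (-s * y)‖
      ≤ (2 ^ k * Real.exp (y / 2)) * Real.exp (-2 * y) := mul_le_mul h2 h1 (norm_nonneg _) (by positivity)
    _ = 2 ^ k * Real.exp (-(3 / 2) * y) := by
        rw [mul_assoc, ← Real.exp_add]
        congr 2
        ring

theorem EX_phi_cont {g s : ℝ} {φ : ℝ → ℝ} (hg : 0 ≤ g) (h : Good g s φ) : Continuous φ := by
  have h1 : LipschitzWith ⟨g, hg⟩ φ := LipschitzWith.of_dist_le_mul fun u v => by
    rw [Real.dist_eq, Real.dist_eq]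
    exact h.lip u v
  exact h1.continuous

/-- the integrand for one prime -/
noncomputable def EX_F (φ : ℝ → ℝ) (k : ℕ) (s : ℂ) (p : Nat.Primes) (y : ℝ) : ℂ :=
  w k s y * ((Real.log (p : ℕ) * (φ (Real.log (p : ℕ) - y) - φ (y - Real.log (p : ℕ))) : ℝ) : ℂ)

theorem EX_log_ge (p : Nat.Primes) : 1 / 4 < Real.log (p : ℕ) := by
  have h1 : (2 : ℝ) ≤ (p : ℕ) := by exact_mod_cast p.2.two_le
  have h2 : Real.log 2 ≤ Real.log (p : ℕ) := Real.log_le_log (by norm_num) h1
  have h3 := Real.log_two_gt_d9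
  linarith

theorem EX_zero {g : ℝ} {φ : ℝ → ℝ} (h : Good g (1 / 4) φ) {l y : ℝ} (hy : 1 / 4 ≤ |y - l|) :
    φ (l - y) - φ (y - l) = 0 := by
  rcases le_abs.1 hy with h1 | h1
  · rw [h.neg (l - y) (by linarith), h.large (y - l) (by linarith), sub_zero]
  · rw [h.large (l - y) (by linarith), h.neg (y - l) (by linarith), sub_zero]

theorem EX_F_cont {g : ℝ} {φ : ℝ → ℝ} (hg : 0 ≤ g) (h : Good g (1 / 4) φ) (k : ℕ) (s : ℂ) (p : Nat.Primes) :
    Continuous (EX_F φ k s p) := by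
  unfold EX_F
  have h1 := EX_phi_cont hg h
  have h2 := EX_w_cont k s
  fun_prop

theorem EX_F_zero {g : ℝ} {φ : ℝ → ℝ} (h : Good g (1 / 4) φ) (k : ℕ) (s : ℂ) (p : Nat.Primes) {y : ℝ}
    (hy : 1 / 4 ≤ |y - Real.log (p : ℕ)|) : EX_F φ k s p y = 0 := by
  unfold EX_F
  rw [EX_zero h hy]
  simp

theorem EX_F_int {g : ℝ} {φ : ℝ → ℝ} (hg : 0 ≤ g) (h : Good g (1 / 4) φ) (k : ℕ) (s : ℂ) (p : Nat.Primes) :
    Integrable (EX_F φ k s p) := by
  refine (EX_F_cont hg h k s p).integrable_of_hasCompactSupport ?_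
  refine HasCompactSupport.intro (isCompact_Icc (a := Real.log (p : ℕ) - 1 / 4) (b := Real.log (p : ℕ) + 1 / 4)) ?_
  intro y hy
  refine EX_F_zero h k s p ?_
  by_contra hc
  rw [not_le, abs_lt] at hc
  exact hy ⟨by linarith [hc.1], by linarith [hc.2]⟩

theorem EX_F_bound {g : ℝ} {φ : ℝ → ℝ} (h : Good g (1 / 4) φ) (k : ℕ) {s : ℂ} (hs : 2 ≤ s.re)
    (p : Nat.Primes) {y : ℝ} (hy : 0 ≤ y) :
    ‖EX_F φ k s p y‖ ≤ (Set.Icc (Real.log (p : ℕ) - 1 / 4) (Real.log (p : ℕ) + 1 / 4)).indicator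
      (fun _ => 2 ^ k * Real.exp (3 / 8) * (Real.log (p : ℕ) * Real.exp (-(3 / 2) * Real.log (p : ℕ)))) y := by
  have hl := EX_log_ge p
  by_cases hm : y ∈ Set.Icc (Real.log (p : ℕ) - 1 / 4) (Real.log (p : ℕ) + 1 / 4)
  · rw [Set.indicator_of_mem hm]
    unfold EX_F
    rw [norm_mul, Complex.norm_real, norm_mul, Real.norm_of_nonneg (by linarith : 0 ≤ Real.log (p : ℕ))]
    have h1 : ‖φ (Real.log (p : ℕ) - y) - φ (y - Real.log (p : ℕ))‖ ≤ 1 := by
      rw [Real.norm_eq_abs, abs_le]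
      have a1 := h.nonneg (Real.log (p : ℕ) - y)
      have a2 := h.le_one (Real.log (p : ℕ) - y)
      have a3 := h.nonneg (y - Real.log (p : ℕ))
      have a4 := h.le_one (y - Real.log (p : ℕ))
      constructor <;> linarith
    have h2 := EX_w_le k hs hy
    have h3 : Real.exp (-(3 / 2) * y) ≤ Real.exp (3 / 8) * Real.exp (-(3 / 2) * Real.log (p : ℕ)) := by
      rw [← Real.exp_add]
      refine Real.exp_le_exp.2 ?_
      linarith [hm.1]
    calc ‖w k s y‖ * (Real.log (p : ℕ) * ‖φ (Real.log (p : ℕ) - y) - φ (y - Real.log (p : ℕ))‖)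
        ≤ (2 ^ k * Real.exp (-(3 / 2) * y)) * (Real.log (p : ℕ) * 1) := by
          refine mul_le_mul h2 (mul_le_mul_of_nonneg_left h1 (by linarith)) (by positivity) (by positivity)
      _ ≤ (2 ^ k * (Real.exp (3 / 8) * Real.exp (-(3 / 2) * Real.log (p : ℕ)))) * (Real.log (p : ℕ) * 1) := by
          refine mul_le_mul_of_nonneg_right ?_ (by linarith)
          exact mul_le_mul_of_nonneg_left h3 (by positivity)
      _ = _ := by ring
  · rw [Set.indicator_of_notMem hm, EX_F_zero h k s p, norm_zero]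
    by_contra hc
    rw [not_le, abs_lt] at hc
    exact hm ⟨by linarith [hc.1], by linarith [hc.2]⟩

theorem EX_summable (c : ℝ) :
    Summable (fun p : Nat.Primes => c * (Real.log (p : ℕ) * Real.exp (-(3 / 2) * Real.log (p : ℕ)))) := by
  refine Summable.mul_left c ?_
  have h1 : Summable (fun p : Nat.Primes => 4 * ((p : ℕ) : ℝ) ^ (-(5 / 4) : ℝ)) :=
    (Nat.Primes.summable_rpow.2 (by norm_num)).mul_left 4
  refine Summable.of_nonneg_of_le (fun p => ?_) (fun p => ?_) h1
  · have := EX_log_ge p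
    positivity
  · have h2 : (0 : ℝ) < (p : ℕ) := by exact_mod_cast p.2.pos
    have h3 : Real.log (p : ℕ) ≤ ((p : ℕ) : ℝ) ^ (1 / 4 : ℝ) / (1 / 4) :=
      Real.log_le_rpow_div h2.le (by norm_num)
    have h4 : Real.exp (-(3 / 2) * Real.log (p : ℕ)) = ((p : ℕ) : ℝ) ^ (-(3 / 2) : ℝ) := by
      rw [Real.rpow_def_of_pos h2, mul_comm]
    rw [h4]
    calc Real.log (p : ℕ) * ((p : ℕ) : ℝ) ^ (-(3 / 2) : ℝ)
        ≤ (((p : ℕ) : ℝ) ^ (1 / 4 : ℝ) / (1 / 4)) * ((p : ℕ) : ℝ) ^ (-(3 / 2) : ℝ) :=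
          mul_le_mul_of_nonneg_right h3 (by positivity)
      _ = 4 * (((p : ℕ) : ℝ) ^ (1 / 4 : ℝ) * ((p : ℕ) : ℝ) ^ (-(3 / 2) : ℝ)) := by ring
      _ = 4 * ((p : ℕ) : ℝ) ^ (-(5 / 4) : ℝ) := by
          rw [← Real.rpow_add h2]
          norm_num

theorem EX_F_norm {g : ℝ} {φ : ℝ → ℝ} (hg : 0 ≤ g) (h : Good g (1 / 4) φ) (k : ℕ) {s : ℂ} (hs : 2 ≤ s.re)
    (p : Nat.Primes) : ∫ y in Set.Ioi (0 : ℝ), ‖EX_F φ k s p y‖ ≤
      (2 ^ k * Real.exp (3 / 8)) * (Real.log (p : ℕ) * Real.exp (-(3 / 2) * Real.log (p : ℕ))) := by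
  have hl := EX_log_ge p
  set K := 2 ^ k * Real.exp (3 / 8) * (Real.log (p : ℕ) * Real.exp (-(3 / 2) * Real.log (p : ℕ))) with hK
  have hK0 : 0 ≤ K := by positivity
  set I := Set.Icc (Real.log (p : ℕ) - 1 / 4) (Real.log (p : ℕ) + 1 / 4) with hI
  have h1 : Integrable (I.indicator (fun _ : ℝ => K)) := by
    rw [integrable_indicator_iff measurableSet_Icc]
    exact integrableOn_const (by simp) (by simp)
  calc ∫ y in Set.Ioi (0 : ℝ), ‖EX_F φ k s p y‖ ≤ ∫ y in Set.Ioi (0 : ℝ), I.indicator (fun _ => K) y := by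
        refine setIntegral_mono_on (EX_F_int hg h k s p).norm.integrableOn h1.integrableOn measurableSet_Ioi ?_
        intro y hy
        exact EX_F_bound h k hs p (le_of_lt hy)
    _ ≤ ∫ y, I.indicator (fun _ => K) y := by
        refine setIntegral_le_integral h1 (Eventually.of_forall fun y => ?_)
        exact Set.indicator_nonneg (fun _ _ => hK0) y
    _ = K / 2 := by
        rw [integral_indicator measurableSet_Icc, setIntegral_const, Measure.real, Real.volume_Icc, smul_eq_mul,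
          ENNReal.toReal_ofReal (by norm_num)]
        ring
    _ ≤ K := by linarith

theorem EX_F_integral {g : ℝ} {φ : ℝ → ℝ} (hg : 0 ≤ g) (h : Good g (1 / 4) φ) (k : ℕ) (s : ℂ)
    (p : Nat.Primes) : ∫ y in Set.Ioi (0 : ℝ), EX_F φ k s p y =
      (Real.log (p : ℕ) : ℂ) * Jk k s φ (Real.log (p : ℕ)) := by
  have hl := EX_log_ge p
  set l := Real.log (p : ℕ) with hldef
  have hφ := EX_phi_cont hg h
  have hw := EX_w_cont k s
  have e1 : ∫ y in Set.Ioi (0 : ℝ), EX_F φ k s p y = ∫ y, EX_F φ k s p y := by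
    refine setIntegral_eq_integral_of_forall_compl_eq_zero fun y hy => ?_
    refine EX_F_zero h k s p ?_
    have hy' : y ≤ 0 := not_lt.1 hy
    rw [abs_sub_comm, ← hldef]
    exact (by linarith : (1 : ℝ) / 4 ≤ l - y).trans (le_abs_self _)
  -- the two parts
  have c1 : Integrable (fun y : ℝ => w k s y * (φ (l - y) : ℂ)) := by
    refine Continuous.integrable_of_hasCompactSupport (by fun_prop) ?_
    refine HasCompactSupport.intro (isCompact_Icc (a := l - 1 / 4) (b := l)) fun y hy => ?_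
    have h1 : φ (l - y) = 0 := by
      rcases lt_or_ge y (l - 1 / 4) with h2 | h2
      · exact h.large _ (by linarith)
      · refine h.neg _ ?_
        by_contra hc
        exact hy ⟨h2, by linarith⟩
    rw [h1]
    simp
  have c2 : Integrable (fun y : ℝ => w k s y * (φ (y - l) : ℂ)) := by
    refine Continuous.integrable_of_hasCompactSupport (by fun_prop) ?_
    refine HasCompactSupport.intro (isCompact_Icc (a := l) (b := l + 1 / 4)) fun y hy => ?_
    have h1 : φ (y - l) = 0 := by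
      rcases lt_or_ge y l with h2 | h2
      · exact h.neg _ (by linarith)
      · refine h.large _ ?_
        by_contra hc
        exact hy ⟨h2, by linarith⟩
    rw [h1]
    simp
  have e2 : ∫ y, EX_F φ k s p y = (l : ℂ) * ((∫ y, w k s y * (φ (l - y) : ℂ)) - ∫ y, w k s y * (φ (y - l) : ℂ)) := by
    rw [← integral_sub c1 c2, ← integral_const_mul]
    refine integral_congr_ae (Eventually.of_forall fun y => ?_)
    show w k s y * ((l * (φ (l - y) - φ (y - l)) : ℝ) : ℂ) =
      (l : ℂ) * (w k s y * (φ (l - y) : ℂ) - w k s y * (φ (y - l) : ℂ))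
    rw [Complex.ofReal_mul, Complex.ofReal_sub]
    ring
  have e3 : ∫ y, w k s y * (φ (l - y) : ℂ) = ∫ u, w k s (l - u) * (φ u : ℂ) := by
    rw [← integral_sub_left_eq_self (fun y => w k s y * (φ (l - y) : ℂ)) volume l]
    refine integral_congr_ae (Eventually.of_forall fun u => ?_)
    simp only [sub_sub_cancel]
  have e4 : ∫ y, w k s y * (φ (y - l) : ℂ) = ∫ u, w k s (l + u) * (φ u : ℂ) := by
    rw [← integral_add_left_eq_self (fun y => w k s y * (φ (y - l) : ℂ)) l]
    refine integral_congr_ae (Eventually.of_forall fun u => ?_)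
    simp only [add_sub_cancel_left]
  have d1 : Integrable (fun u : ℝ => w k s (l - u) * (φ u : ℂ)) := by
    refine Continuous.integrable_of_hasCompactSupport (by fun_prop) ?_
    refine HasCompactSupport.intro (isCompact_Icc (a := 0) (b := 1 / 4)) fun y hy => ?_
    have h1 : φ y = 0 := by
      rcases lt_or_ge y 0 with h2 | h2
      · exact h.neg _ h2.le
      · refine h.large _ ?_
        by_contra hc
        exact hy ⟨h2, by linarith⟩
    rw [h1]
    simp
  have d2 : Integrable (fun u : ℝ => w k s (l + u) * (φ u : ℂ)) := by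
    refine Continuous.integrable_of_hasCompactSupport (by fun_prop) ?_
    refine HasCompactSupport.intro (isCompact_Icc (a := 0) (b := 1 / 4)) fun y hy => ?_
    have h1 : φ y = 0 := by
      rcases lt_or_ge y 0 with h2 | h2
      · exact h.neg _ h2.le
      · refine h.large _ ?_
        by_contra hc
        exact hy ⟨h2, by linarith⟩
    rw [h1]
    simp
  have e5 : Jk k s φ l = ∫ u, (φ u : ℂ) * (w k s (l - u) - w k s (l + u)) := by
    unfold Jk
    rw [intervalIntegral.integral_of_le (by norm_num)]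
    refine setIntegral_eq_integral_of_forall_compl_eq_zero fun u hu => ?_
    have h1 : φ u = 0 := by
      rcases le_or_gt u 0 with h2 | h2
      · exact h.neg _ h2
      · refine h.large _ ?_
        by_contra hc
        exact hu ⟨h2, by linarith⟩
    rw [h1]
    simp
  rw [e1, e2, e3, e4, e5, ← integral_sub d1 d2]
  congr 1
  refine integral_congr_ae (Eventually.of_forall fun u => ?_)
  simp only
  ring

theorem EX : EX_stmt := by
  intro g φ k s hg hφ hs
  have hg0 : 0 ≤ g := by linarith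
  have hint : ∀ p : Nat.Primes, Integrable (EX_F φ k s p) (volume.restrict (Set.Ioi 0)) := fun p =>
    (EX_F_int hg0 hφ k s p).integrableOn
  have hsum : Summable (fun p : Nat.Primes => ∫ y in Set.Ioi (0 : ℝ), ‖EX_F φ k s p y‖) :=
    Summable.of_nonneg_of_le (fun p => integral_nonneg fun y => norm_nonneg _)
      (fun p => EX_F_norm hg0 hφ k hs p) (EX_summable _)
  have heq : ∀ y : ℝ, ∑' p : Nat.Primes, EX_F φ k s p y = w k s y * (Lq φ y : ℂ) := by
    intro y
    unfold EX_F Lq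
    rw [tsum_mul_left, Complex.ofReal_tsum]
  have h1 := EX_int_tsum hint hsum
  have h2 := hasSum_integral_of_summable_integral_norm hint hsum
  simp only [heq] at h1 h2
  have h3 : (fun p : Nat.Primes => ∫ y in Set.Ioi (0 : ℝ), EX_F φ k s p y) =
      fun p : Nat.Primes => (Real.log (p : ℕ) : ℂ) * Jk k s φ (Real.log (p : ℕ)) :=
    funext fun p => EX_F_integral hg0 hφ k s p
  rw [h3] at h2
  exact ⟨h1, h2.summable, h2.tsum_eq.symm⟩

end Pool.Agent.QZ
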